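import Pool.Agent.H20.ER3.Lib

/-!
# MP_816b90_co: Operation C, row GA
-/

set_option autoImplicit false

namespace Pool.Agent.H11.ER3

open Pool.Agent.H48.ER Pool.Agent.H52.ER2 Pool.Agent.H66.ER2 Pool.Agent.H20.ER3

/-- (GA) paths of `G` and paths of the mixed graph without roots -/
theorem pf_GA : U_GA := by
  intro V G R n
  refine ⟨?_, ?_⟩
  · rintro x y X ⟨g, h0, hn, hi, ha, hX⟩
    refine ⟨fun i => Sum.inl (g i), by simp only [h0], by simp only [hn], ?_, ?_, ?_⟩
    · intro i j hi' hj' e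
      exact hi i j hi' hj' (Sum.inl.inj e)
    · intro i j hi' hj'
      rw [mg_ll]
      exact ha i j hi' hj'
    · ext v
      constructor
      · rintro ⟨w, hw, rfl⟩
        rw [hX] at hw
        obtain ⟨i, hi', rfl⟩ := hw
        exact ⟨i, hi', rfl⟩
      · rintro ⟨i, hi', rfl⟩
        refine ⟨g i, ?_, rfl⟩
        rw [hX]
        exact ⟨i, hi', rfl⟩
  · rintro x y Z ⟨g, h0, hn, hi, ha, hZ⟩ hr
    have hl : ∀ i, i ≤ n → ∃ w : V, g i = Sum.inl w := by
      intro i hi'
      rcases hg : g i with w | F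
      · exact ⟨w, rfl⟩
      · have hF : F ∈ rt Z := by
          show Sum.inr F ∈ Z
          rw [hZ, ← hg]
          exact ⟨i, hi', rfl⟩
        rw [hr] at hF
        exact absurd hF (Set.notMem_empty F)
    obtain ⟨x', hx'⟩ := hl 0 (Nat.zero_le n)
    have hg : ∃ g' : ℕ → V, ∀ i, i ≤ n → g i = Sum.inl (g' i) := by
      classical
      refine ⟨fun i => if h : i ≤ n then (hl i h).choose else x', ?_⟩
      intro i h
      show g i = Sum.inl (if h : i ≤ n then (hl i h).choose else x')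
      rw [dif_pos h]
      exact (hl i h).choose_spec
    obtain ⟨g', hg'⟩ := hg
    refine ⟨g' 0, g' n, {v | ∃ i, i ≤ n ∧ g' i = v}, ?_, ?_, ?_, g', rfl, rfl, ?_, ?_, rfl⟩
    · rw [← h0]; exact hg' 0 (Nat.zero_le n)
    · rw [← hn]; exact hg' n le_rfl
    · ext v
      constructor
      · intro hv
        rw [hZ] at hv
        obtain ⟨i, hi', rfl⟩ := hv
        exact ⟨g' i, ⟨i, hi', rfl⟩, (hg' i hi').symm⟩
      · rintro ⟨w, ⟨i, hi', rfl⟩, rfl⟩
        rw [hZ]
        exact ⟨i, hi', hg' i hi'⟩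
    · intro i j hi' hj' e
      apply hi i j hi' hj'
      rw [hg' i hi', hg' j hj', e]
    · intro i j hi' hj'
      rw [← ha i j hi' hj', hg' i hi', hg' j hj', mg_ll]

end Pool.Agent.H11.ER3
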